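import Pool.Agent.W2helper63.LL.Stm

/-!
# Project LL: pieces FRI and FRV
-/

set_option autoImplicit false

noncomputable section

namespace Pool.Agent.W2helper63.LL.FR

open IsDedekindDomain Polynomial Matrix WithZero Topology
open scoped Classical

theorem approx {k L : Type} [Field k] [Field L] [Valued L (WithZero (Multiplicative ℤ))]
    (f : k → L) (hf : DenseRange f) (x : L) : ∃ r : k, Valued.v (f r - x) < 1 := by
  have h1 : {y : L | Valued.v.restrict (y - x) < 1} ∈ 𝓝 x :=
    Valued.mem_nhds.2 ⟨1, fun y hy => hy⟩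
  obtain ⟨y, ⟨r, hr⟩, hy⟩ := hf.inter_nhds_nonempty h1
  refine ⟨r, ?_⟩
  rw [hr]
  have h2 := (Valuation.restrict_lt_iff_lt_embedding _).1 hy
  rwa [map_one] at h2

theorem two_of {k L : Type} [Field k] [Field L] [Valued L (WithZero (Multiplicative ℤ))]
    (f : k →+* L) (hf : DenseRange f)
    (h : ∀ t : k, Valued.v (f t) = 1 → Valued.v (f (1 + t)) < 1) (x y : L)
    (hx : Valued.v x = 1) (hy : Valued.v y = 1) : Valued.v (x + y) < 1 := by
  obtain ⟨r, hr⟩ := approx f hf x
  obtain ⟨s, hs⟩ := approx f hf y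
  have hr1 : Valued.v (f r) = 1 := by
    have h1 : f r = x + (f r - x) := by ring
    rw [h1, Valuation.map_add_eq_of_lt_left _ (by rwa [hx]), hx]
  have hs1 : Valued.v (f s) = 1 := by
    have h1 : f s = y + (f s - y) := by ring
    rw [h1, Valuation.map_add_eq_of_lt_left _ (by rwa [hy]), hy]
  have hr0 : r ≠ 0 := by
    rintro rfl
    rw [map_zero, map_zero] at hr1
    exact zero_ne_one hr1
  have h2 : Valued.v (f (s / r)) = 1 := by
    rw [map_div₀, map_div₀, hr1, hs1, div_one]
  have h3 := h (s / r) h2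
  have h4 : r * (1 + s / r) = r + s := by
    field_simp
  have h5 : Valued.v (f (r + s)) < 1 := by
    rw [← h4, map_mul, map_mul, hr1, one_mul]
    exact h3
  have h6 : x + y = f (r + s) + (-((f r - x) + (f s - y))) := by
    rw [map_add]
    ring
  rw [h6]
  refine lt_of_le_of_lt (Valuation.map_add _ _ _) (max_lt h5 ?_)
  rw [Valuation.map_neg]
  exact lt_of_le_of_lt (Valuation.map_add _ _ _) (max_lt hr hs)

/-! ## The infinite place -/

theorem v_inf (r : K) : Valued.v (algebraMap K Kinf r) = RatFunc.inftyValuation (ZMod 2) r := by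
  rw [RatFunc.valuedCompletionAtInfty.def]
  let _ := RatFunc.inftyValued (ZMod 2)
  exact Valued.extensionValuation_apply_coe r

theorem dense_inf : DenseRange (algebraMap K Kinf) := by
  let _ := RatFunc.inftyValued (ZMod 2)
  exact UniformSpace.Completion.denseRange_coe (α := RatFunc (ZMod 2))

theorem inf_two (t : K) (ht : RatFunc.inftyValuation (ZMod 2) t = 1) :
    RatFunc.inftyValuation (ZMod 2) (1 + t) < 1 := by
  have ht0 : t ≠ 0 := by
    rintro rfl
    rw [map_zero] at ht
    exact zero_ne_one ht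
  set a := t.num with ha
  set b := t.denom with hb
  have ha0 : a ≠ 0 := RatFunc.num_ne_zero ht0
  have hb0 : b ≠ 0 := RatFunc.denom_ne_zero t
  have hval : ∀ p : R, p ≠ 0 → RatFunc.inftyValuation (ZMod 2) (algebraMap R K p) =
      exp (p.natDegree : ℤ) := fun p hp => RatFunc.inftyValuation.polynomial (ZMod 2) hp
  have hab : algebraMap R K a / algebraMap R K b = t := RatFunc.num_div_denom t
  have hbK : algebraMap R K b ≠ 0 := by
    rw [Ne, map_eq_zero_iff _ (RatFunc.algebraMap_injective (ZMod 2))]
    exact hb0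
  have h1 : a.natDegree = b.natDegree := by
    have h2 : RatFunc.inftyValuation (ZMod 2) (algebraMap R K a) =
        RatFunc.inftyValuation (ZMod 2) (algebraMap R K b) := by
      rw [← hab, map_div₀] at ht
      exact (div_eq_one_iff_eq (by rw [hval b hb0]; exact exp_ne_zero)).1 ht
    rw [hval a ha0, hval b hb0] at h2
    have h3 := exp_injective h2
    exact_mod_cast h3
  have hone : ∀ z : ZMod 2, z ≠ 0 → z = 1 := by decide
  have h2 : a.leadingCoeff = b.leadingCoeff := by
    rw [hone _ (leadingCoeff_ne_zero.2 ha0), hone _ (leadingCoeff_ne_zero.2 hb0)]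
  have h3 : (b - a).degree < b.degree := degree_sub_lt_left (by
    rw [degree_eq_natDegree hb0, degree_eq_natDegree ha0, h1]) hb0 h2.symm
  have h4 : 1 + t = algebraMap R K (b - a) / algebraMap R K b := by
    rw [← hab, map_sub, sub_div, div_self hbK, sub_eq_add_neg]
    congr 1
    have h5 : ∀ z : K, z = -z := by
      intro z
      have h6 : (2 : K) = 0 := by
        have h7 : ((2 : ZMod 2)) = 0 := by decide
        have h8 := congrArg (algebraMap (ZMod 2) K) h7
        rwa [map_ofNat, map_zero] at h8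
      have h9 : z + z = 0 := by rw [← two_mul, h6, zero_mul]
      exact eq_neg_of_add_eq_zero_left h9
    exact h5 _
  rw [h4, map_div₀, hval b hb0]
  by_cases hz : b - a = 0
  · rw [hz, map_zero, map_zero, zero_div]
    exact zero_lt_one
  · rw [hval _ hz, div_lt_one₀ (by exact exp_pos), exp_lt_exp]
    have h5 := natDegree_lt_natDegree hz h3
    exact_mod_cast h5

theorem fri : S_FRI := by
  refine ⟨?_, ?_, ?_⟩
  · have h1 : ((pinf : Kinfˣ) : Kinf) = (algebraMap K Kinf RatFunc.X)⁻¹ := by
      unfold pinf Tu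
      rw [Units.val_inv_eq_inv_val]
      rfl
    rw [h1, map_inv₀, v_inf, RatFunc.inftyValuation.X, ← WithZero.exp_neg]
  · intro x y hx hy
    refine two_of (algebraMap K Kinf) dense_inf ?_ x y hx hy
    intro t ht
    rw [v_inf] at ht ⊢
    exact inf_two t ht
  · have h7 : ((2 : ZMod 2)) = 0 := by decide
    have h8 := congrArg (fun z => algebraMap K Kinf (algebraMap (ZMod 2) K z)) h7
    simp only [map_ofNat, map_zero] at h8
    exact h8

/-! ## The place `T - 1` -/

theorem v_one (r : K) : Valued.v (algebraMap K (Kv v1) r) = v1.valuation K r :=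
  HeightOneSpectrum.valuedAdicCompletion_eq_valuation' v1 r

theorem one_two (t : K) (ht : v1.valuation K t = 1) : v1.valuation K (1 + t) < 1 := by
  have ht0 : t ≠ 0 := by
    rintro rfl
    rw [map_zero] at ht
    exact zero_ne_one ht
  set a := t.num with ha
  set b := t.denom with hb
  have hb0 : b ≠ 0 := RatFunc.denom_ne_zero t
  have hab : algebraMap R K a / algebraMap R K b = t := RatFunc.num_div_denom t
  have hbK : algebraMap R K b ≠ 0 := by
    rw [Ne, map_eq_zero_iff _ (RatFunc.algebraMap_injective (ZMod 2))]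
    exact hb0
  have hmem : ∀ p : R, p ∈ v1.asIdeal ↔ p.eval 1 = 0 := by
    intro p
    change p ∈ Ideal.span {X - C (1 : ZMod 2)} ↔ _
    rw [Ideal.mem_span_singleton, dvd_iff_isRoot]
    rfl
  have hvb0 : v1.valuation K (algebraMap R K b) ≠ 0 := by
    rw [Ne, map_eq_zero]
    exact hbK
  have heq : v1.valuation K (algebraMap R K a) = v1.valuation K (algebraMap R K b) := by
    rw [← hab, map_div₀] at ht
    exact (div_eq_one_iff_eq hvb0).1 ht
  have hlt : ∀ p : R, v1.valuation K (algebraMap R K p) < 1 ↔ p ∈ v1.asIdeal := fun p =>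
    HeightOneSpectrum.valuation_lt_one_iff_mem v1 p
  have hb1 : b ∉ v1.asIdeal := by
    intro h1
    have h2 : a ∈ v1.asIdeal := by
      rw [← hlt, heq, hlt]
      exact h1
    obtain ⟨x, y, hxy⟩ := RatFunc.isCoprime_num_denom t
    apply v1.isPrime.ne_top
    rw [Ideal.eq_top_iff_one, ← hxy]
    exact Ideal.add_mem _ (Ideal.mul_mem_left _ x h2) (Ideal.mul_mem_left _ y h1)
  have ha1 : a ∉ v1.asIdeal := by
    rw [← hlt, heq, hlt]
    exact hb1
  have hone : ∀ z : ZMod 2, z ≠ 0 → z = 1 := by decide
  have hsum : b + a ∈ v1.asIdeal := by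
    rw [hmem, eval_add, hone _ (fun h => hb1 ((hmem b).2 h)), hone _ (fun h => ha1 ((hmem a).2 h))]
    decide
  have h4 : 1 + t = algebraMap R K (b + a) / algebraMap R K b := by
    rw [← hab, map_add, add_div, div_self hbK]
  have hvb : v1.valuation K (algebraMap R K b) = 1 :=
    (HeightOneSpectrum.valuation_eq_one_iff_notMem v1).2 hb1
  rw [h4, map_div₀, hvb, div_one, hlt]
  exact hsum

theorem frv : S_FRV := by
  have hX : (X - C (1 : ZMod 2) : R) ≠ 0 := X_sub_C_ne_zero 1
  have hXK : algebraMap R K (X - C 1) ≠ 0 := by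
    rw [Ne, map_eq_zero_iff _ (RatFunc.algebraMap_injective (ZMod 2))]
    exact hX
  refine ⟨Units.mk0 (algebraMap K (Kv v1) (algebraMap R K (X - C 1))) ?_, ?_, ?_, ?_⟩
  · rw [Ne, map_eq_zero]
    exact hXK
  · rw [Units.val_mk0, v_one, HeightOneSpectrum.valuation_of_algebraMap]
    exact HeightOneSpectrum.intValuation_singleton v1 hX rfl
  · intro x y hx hy
    refine two_of (algebraMap K (Kv v1)) (HeightOneSpectrum.denseRange_algebraMap K v1) ?_ x y hx hy
    intro t ht
    rw [v_one] at ht ⊢
    exact one_two t ht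
  · have h7 : ((2 : ZMod 2)) = 0 := by decide
    have h8 := congrArg (fun z => algebraMap K (Kv v1) (algebraMap (ZMod 2) K z)) h7
    simp only [map_ofNat, map_zero] at h8
    exact h8

end Pool.Agent.W2helper63.LL.FR
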