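import Pool.Agent.W2helper63.LL.Stm

/-!
# Project LL: piece DD
-/

set_option autoImplicit false

noncomputable section

namespace Pool.Agent.W2helper63.LL.DD

open IsDedekindDomain Polynomial Matrix WithZero
open scoped Classical

section gen

variable {L : Type} [Field L] [Valued L (WithZero (Multiplicative ℤ))]

theorem v_add {x y : L} (hx : Valued.v x ≤ 1) (hy : Valued.v y ≤ 1) : Valued.v (x + y) ≤ 1 :=
  (Valuation.map_add _ x y).trans (max_le hx hy)

theorem v_mul {x y : L} (hx : Valued.v x ≤ 1) (hy : Valued.v y ≤ 1) : Valued.v (x * y) ≤ 1 := by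
  rw [map_mul]
  exact mul_le_one' hx hy

theorem v_add_lt {x y : L} (hx : Valued.v x < 1) (hy : Valued.v y < 1) : Valued.v (x + y) < 1 :=
  lt_of_le_of_lt (Valuation.map_add _ x y) (max_lt hx hy)

theorem v_mul_lt {x y : L} (hx : Valued.v x < 1) (hy : Valued.v y ≤ 1) : Valued.v (x * y) < 1 := by
  rw [map_mul]
  exact mul_lt_one_of_lt_of_le hx hy

theorem v_mul_lt' {x y : L} (hx : Valued.v x ≤ 1) (hy : Valued.v y < 1) : Valued.v (x * y) < 1 := by
  rw [mul_comm]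
  exact v_mul_lt hy hx

theorem integral_mul {g h : GL (Fin 2) L} (hg : Integral g) (hh : Integral h) :
    Integral (g * h) := by
  intro i j
  constructor
  · rw [GeneralLinearGroup.coe_mul, Matrix.mul_apply, Fin.sum_univ_two]
    exact v_add (v_mul (hg i 0).1 (hh 0 j).1) (v_mul (hg i 1).1 (hh 1 j).1)
  · rw [_root_.mul_inv_rev, GeneralLinearGroup.coe_mul, Matrix.mul_apply, Fin.sum_univ_two]
    exact v_add (v_mul (hh i 0).2 (hg 0 j).2) (v_mul (hh i 1).2 (hg 1 j).2)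

theorem integral_inv {g : GL (Fin 2) L} (hg : Integral g) : Integral g⁻¹ := by
  intro i j
  rw [_root_.inv_inv]
  exact (hg i j).symm

theorem integral_one : Integral (1 : GL (Fin 2) L) := by
  intro i j
  rw [inv_one]
  have h : Valued.v ((1 : GL (Fin 2) L).1 i j) ≤ 1 := by
    rw [Units.val_one, Matrix.one_apply]
    split_ifs
    · rw [map_one]
    · rw [map_zero]
      exact zero_le_one
  exact ⟨h, h⟩

theorem rd_add {p : Lˣ} (hL : Res2 L p) {x y : L} (hx : Valued.v x ≤ 1) (hy : Valued.v y ≤ 1) :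
    rd (x + y) = rd x + rd y := by
  unfold rd
  rcases lt_or_eq_of_le hx with h1 | h1 <;> rcases lt_or_eq_of_le hy with h2 | h2
  · rw [if_pos h1, if_pos h2, if_pos (v_add_lt h1 h2), add_zero]
  · have h3 : Valued.v (x + y) = 1 := by
      rw [Valuation.map_add_eq_of_lt_right _ (by rwa [h2]), h2]
    rw [if_pos h1, if_neg (show ¬ Valued.v (x + y) < 1 by rw [h3]; exact lt_irrefl _),
      if_neg (show ¬ Valued.v y < 1 by rw [h2]; exact lt_irrefl _), zero_add]
  · have h3 : Valued.v (x + y) = 1 := by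
      rw [Valuation.map_add_eq_of_lt_left _ (by rwa [h1]), h1]
    rw [if_pos h2, if_neg (show ¬ Valued.v (x + y) < 1 by rw [h3]; exact lt_irrefl _),
      if_neg (show ¬ Valued.v x < 1 by rw [h1]; exact lt_irrefl _), add_zero]
  · rw [if_pos (hL.two x y h1 h2), if_neg (by rw [h1]; exact lt_irrefl _),
      if_neg (by rw [h2]; exact lt_irrefl _)]
    decide

theorem rd_mul {x y : L} (hx : Valued.v x ≤ 1) (hy : Valued.v y ≤ 1) :
    rd (x * y) = rd x * rd y := by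
  unfold rd
  rcases lt_or_eq_of_le hx with h1 | h1
  · rw [if_pos h1, if_pos (v_mul_lt h1 hy), zero_mul]
  · rcases lt_or_eq_of_le hy with h2 | h2
    · rw [if_pos h2, if_pos (v_mul_lt' hx h2), mul_zero]
    · rw [if_neg (by rw [map_mul, h1, h2, one_mul]; exact lt_irrefl _),
        if_neg (by rw [h1]; exact lt_irrefl _), if_neg (by rw [h2]; exact lt_irrefl _), one_mul]

theorem rd_one : rd (1 : L) = 1 := by
  unfold rd
  rw [if_neg]
  rw [map_one]
  exact lt_irrefl _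

theorem rd_zero : rd (0 : L) = 0 := by
  unfold rd
  rw [if_pos]
  rw [map_zero]
  exact zero_lt_one

theorem map_one_rd : (1 : GL (Fin 2) L).1.map rd = 1 := by
  ext i j
  rw [Matrix.map_apply, Units.val_one, Matrix.one_apply, Matrix.one_apply]
  split_ifs
  · exact rd_one
  · exact rd_zero

theorem map_mul_rd {p : Lˣ} (hL : Res2 L p) {g h : GL (Fin 2) L} (hg : Integral g)
    (hh : Integral h) : (g * h).1.map rd = g.1.map rd * h.1.map rd := by
  ext i j
  rw [Matrix.map_apply, GeneralLinearGroup.coe_mul, Matrix.mul_apply, Fin.sum_univ_two,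
    Matrix.mul_apply, Fin.sum_univ_two,
    rd_add hL (v_mul (hg i 0).1 (hh 0 j).1) (v_mul (hg i 1).1 (hh 1 j).1),
    rd_mul (hg i 0).1 (hh 0 j).1, rd_mul (hg i 1).1 (hh 1 j).1]
  rfl

theorem sgnM_aux : ∀ a b c d a' b' c' d' : ZMod 2, a * d + b * c = 1 → a' * d' + b' * c' = 1 →
    (((a * a' + b * c' = 1 ∧ a * b' + b * d' = 0 ∧ c * a' + d * c' = 0 ∧ c * b' + d * d' = 1) ∨
      (a * a' + b * c') + (c * b' + d * d') = 1) ↔
      (((a = 1 ∧ b = 0 ∧ c = 0 ∧ d = 1) ∨ a + d = 1) ↔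
        ((a' = 1 ∧ b' = 0 ∧ c' = 0 ∧ d' = 1) ∨ a' + d' = 1))) := by
  decide

theorem eq_one_iff (A : Matrix (Fin 2) (Fin 2) (ZMod 2)) :
    A = 1 ↔ (A 0 0 = 1 ∧ A 0 1 = 0 ∧ A 1 0 = 0 ∧ A 1 1 = 1) := by
  constructor
  · rintro rfl
    simp
  · rintro ⟨h1, h2, h3, h4⟩
    ext i j
    fin_cases i <;> fin_cases j <;> simp [h1, h2, h3, h4]

theorem sgnM_iff (A : Matrix (Fin 2) (Fin 2) (ZMod 2)) :
    (A = 1 ∨ A.trace = 1) ↔
      ((A 0 0 = 1 ∧ A 0 1 = 0 ∧ A 1 0 = 0 ∧ A 1 1 = 1) ∨ A 0 0 + A 1 1 = 1) := by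
  rw [eq_one_iff, Matrix.trace_fin_two]

theorem det_aux {A A' : Matrix (Fin 2) (Fin 2) (ZMod 2)} (h : A * A' = 1) :
    A 0 0 * A 1 1 + A 0 1 * A 1 0 = 1 := by
  have h1 : A.det * A'.det = 1 := by rw [← Matrix.det_mul, h, Matrix.det_one]
  have h2 : ∀ x y : ZMod 2, x * y = 1 → x = 1 := by decide
  have h3 := h2 _ _ h1
  rw [Matrix.det_fin_two] at h3
  have h4 : ∀ x y : ZMod 2, x - y = x + y := by decide
  rwa [h4] at h3

theorem sgnM_mul {A A' B B' : Matrix (Fin 2) (Fin 2) (ZMod 2)} (hA : A * A' = 1)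
    (hB : B * B' = 1) : sgnM (A * B) = sgnM A * sgnM B := by
  have h1 := sgnM_aux (A 0 0) (A 0 1) (A 1 0) (A 1 1) (B 0 0) (B 0 1) (B 1 0) (B 1 1)
    (det_aux hA) (det_aux hB)
  have h2 : (A * B = 1 ∨ (A * B).trace = 1) ↔ ((A = 1 ∨ A.trace = 1) ↔ (B = 1 ∨ B.trace = 1)) := by
    rw [sgnM_iff, sgnM_iff, sgnM_iff]
    simp only [Matrix.mul_apply, Fin.sum_univ_two]
    exact h1
  unfold sgnM
  by_cases hA1 : A = 1 ∨ A.trace = 1 <;> by_cases hB1 : B = 1 ∨ B.trace = 1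
  · rw [if_pos hA1, if_pos hB1, if_pos (h2.2 (iff_of_true hA1 hB1)), one_mul]
  · rw [if_pos hA1, if_neg hB1, if_neg (fun h => hB1 ((h2.1 h).1 hA1)), one_mul]
  · rw [if_neg hA1, if_pos hB1, if_neg (fun h => hA1 ((h2.1 h).2 hB1)), mul_one]
  · rw [if_neg hA1, if_neg hB1, if_pos (h2.2 (iff_of_false hA1 hB1))]
    norm_num

theorem sgn_mul {p : Lˣ} (hL : Res2 L p) {g h : GL (Fin 2) L} (hg : Integral g)
    (hh : Integral h) : sgn (g * h) = sgn g * sgn h := by
  unfold sgn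
  rw [map_mul_rd hL hg hh]
  refine sgnM_mul (A' := g⁻¹.1.map rd) (B' := h⁻¹.1.map rd) ?_ ?_
  · rw [← map_mul_rd hL hg (integral_inv hg), mul_inv_cancel, map_one_rd]
  · rw [← map_mul_rd hL hh (integral_inv hh), mul_inv_cancel, map_one_rd]

theorem sgn_one : sgn (1 : GL (Fin 2) L) = 1 := by
  unfold sgn sgnM
  rw [map_one_rd, if_pos (Or.inl rfl)]

theorem up_mul {g h : GL (Fin 2) L} (hg : Integral g) (hh : Integral h)
    (h1 : Valued.v (g.1 0 1) < 1) (h2 : Valued.v (h.1 0 1) < 1) :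
    Valued.v ((g * h).1 0 1) < 1 := by
  rw [GeneralLinearGroup.coe_mul, Matrix.mul_apply, Fin.sum_univ_two]
  exact v_add_lt (v_mul_lt' (hg 0 0).1 h2) (v_mul_lt h1 (hh 1 1).1)

theorem lo_mul {g h : GL (Fin 2) L} (hg : Integral g) (hh : Integral h)
    (h1 : Valued.v (g.1 1 0) < 1) (h2 : Valued.v (h.1 1 0) < 1) :
    Valued.v ((g * h).1 1 0) < 1 := by
  rw [GeneralLinearGroup.coe_mul, Matrix.mul_apply, Fin.sum_univ_two]
  exact v_add_lt (v_mul_lt h1 (hh 0 0).1) (v_mul_lt' (hg 1 1).1 h2)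

theorem unit_of {x y z : L} (hx : Valued.v x ≤ 1) (hy : Valued.v y ≤ 1) (hz : Valued.v z < 1)
    (h : x * y + z = 1) : Valued.v x = 1 := by
  rcases lt_or_eq_of_le hx with h1 | h1
  · have h2 : Valued.v (x * y + z) < 1 := v_add_lt (v_mul_lt h1 hy) hz
    rw [h, map_one] at h2
    exact absurd h2 (lt_irrefl _)
  · exact h1

theorem small_of {x y z : L} (hx : Valued.v x = 1) (hz : Valued.v z < 1)
    (h : x * y + z = 0) : Valued.v y < 1 := by
  have h1 : x * y = -z := eq_neg_of_add_eq_zero_left h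
  have h2 : Valued.v (x * y) = Valued.v z := by rw [h1, Valuation.map_neg]
  rw [map_mul, hx, one_mul] at h2
  rwa [h2]

theorem up_inv {g : GL (Fin 2) L} (hg : Integral g) (h1 : Valued.v (g.1 0 1) < 1) :
    Valued.v (g⁻¹.1 0 1) < 1 := by
  have h2 : g.1 * g⁻¹.1 = 1 := by rw [← GeneralLinearGroup.coe_mul, mul_inv_cancel]; rfl
  have h00 := congrFun (congrFun h2 0) 0
  have h01 := congrFun (congrFun h2 0) 1
  rw [Matrix.mul_apply, Fin.sum_univ_two] at h00 h01
  have h3 : Valued.v (g.1 0 0) = 1 :=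
    unit_of (hg 0 0).1 (hg 0 0).2 (v_mul_lt h1 (hg 1 0).2) (by simpa using h00)
  exact small_of h3 (v_mul_lt h1 (hg 1 1).2) (by simpa using h01)

theorem lo_inv {g : GL (Fin 2) L} (hg : Integral g) (h1 : Valued.v (g.1 1 0) < 1) :
    Valued.v (g⁻¹.1 1 0) < 1 := by
  have h2 : g.1 * g⁻¹.1 = 1 := by rw [← GeneralLinearGroup.coe_mul, mul_inv_cancel]; rfl
  have h11 := congrFun (congrFun h2 1) 1
  have h10 := congrFun (congrFun h2 1) 0
  rw [Matrix.mul_apply, Fin.sum_univ_two, add_comm] at h11 h10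
  have h3 : Valued.v (g.1 1 1) = 1 :=
    unit_of (hg 1 1).1 (hg 1 1).2 (v_mul_lt h1 (hg 0 1).2) (by simpa using h11)
  exact small_of h3 (v_mul_lt h1 (hg 0 0).2) (by simpa using h10)

end gen

theorem pr_mul (v : Pl) (k l : GA) : pr v (k * l) = pr v k * pr v l := by
  unfold pr
  rw [Prod.fst_mul, map_mul]

theorem pr_one (v : Pl) : pr v 1 = 1 := by
  unfold pr
  rw [Prod.fst_one, map_one]

theorem pr_inv (v : Pl) (k : GA) : pr v k⁻¹ = (pr v k)⁻¹ := by
  unfold pr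
  rw [Prod.fst_inv, map_inv]

theorem dd : S_DD := by
  refine ⟨fun L _ _ p hL g h hg hh => ⟨integral_mul hg hh, integral_inv hg, sgn_mul hL hg hh⟩,
    ?_, ?_, ?_, ?_, ?_⟩
  · refine ⟨fun v => by rw [pr_one]; exact integral_one, integral_one, ?_, ?_⟩
    · rw [pr_one, Units.val_one, Matrix.one_apply_ne (by decide), map_zero]
      exact zero_lt_one
    · change Valued.v ((1 : Matrix (Fin 2) (Fin 2) Kinf) 1 0) < 1
      rw [Matrix.one_apply_ne (by decide), map_zero]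
      exact zero_lt_one
  · rintro k l ⟨h1, h2, h3, h4⟩ ⟨k1, k2, k3, k4⟩
    refine ⟨fun v => by rw [pr_mul]; exact integral_mul (h1 v) (k1 v), integral_mul h2 k2, ?_, ?_⟩
    · rw [pr_mul]
      exact up_mul (h1 v0) (k1 v0) h3 k3
    · exact lo_mul h2 k2 h4 k4
  · rintro k ⟨h1, h2, h3, h4⟩
    refine ⟨fun v => by rw [pr_inv]; exact integral_inv (h1 v), integral_inv h2, ?_, ?_⟩
    · rw [pr_inv]
      exact up_inv (h1 v0) h3
    · exact lo_inv h2 h4
  · rintro ⟨p, hp⟩ k l hk hl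
    unfold chi
    rw [pr_mul]
    exact sgn_mul hp (hk.1 v1) (hl.1 v1)
  · unfold chi
    rw [pr_one]
    exact sgn_one

end Pool.Agent.W2helper63.LL.DD
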